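import Pool.Agent.W821.TB.Rigid

/-!
# Connected real-analytic families of relative periodic solutions
-/

set_option autoImplicit false

open Filter Topology Set

namespace Pool.Agent.U708.NB

open Pool.Agent.W821.TB

variable {n : ℕ} {m : Fin n → ℝ} {V : Type*} [NormedAddCommGroup V] [NormedSpace ℝ V]

section path

variable {D : Set V} {s₀ v : V} {ρ : ℝ}

lemma path_mem (hball : Metric.ball s₀ ρ ⊆ D) (hv : ‖v‖ < ρ) (r : ℝ) :
    s₀ + Real.sin r • v ∈ D := by
  apply hball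
  rw [Metric.mem_ball, dist_eq_norm, add_sub_cancel_left, norm_smul]
  refine lt_of_le_of_lt ?_ hv
  have h1 : ‖Real.sin r‖ ≤ 1 := by
    rw [Real.norm_eq_abs]
    exact Real.abs_sin_le_one r
  calc ‖Real.sin r‖ * ‖v‖ ≤ 1 * ‖v‖ := mul_le_mul_of_nonneg_right h1 (norm_nonneg _)
    _ = ‖v‖ := one_mul _

lemma path_an (s₀ v : V) : AnalyticOnNhd ℝ (fun r : ℝ => s₀ + Real.sin r • v) univ := by
  intro r _
  have h1 : AnalyticAt ℝ Real.sin r := Real.analyticAt_sin
  exact analyticAt_const.add (h1.smul analyticAt_const)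

lemma path_an2 (s₀ v : V) :
    AnalyticOnNhd ℝ (fun p : ℝ × ℝ => ((s₀ + Real.sin p.1 • v, p.2) : V × ℝ)) univ := by
  intro p _
  have h0 : AnalyticAt ℝ (fun p : ℝ × ℝ => s₀ + Real.sin p.1 • v) p :=
    AnalyticAt.fun_comp (g := fun r : ℝ => s₀ + Real.sin r • v) (f := fun p : ℝ × ℝ => p.1)
      (path_an s₀ v p.1 (mem_univ _)) analyticAt_fst
  exact h0.prod analyticAt_snd

/-- The family along a path in the parameter domain. -/
lemma fam_an {y : V → ℝ → Ph n}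
    (hy : AnalyticOnNhd ℝ (fun p : V × ℝ => y p.1 p.2) (D ×ˢ univ))
    (hball : Metric.ball s₀ ρ ⊆ D) (hv : ‖v‖ < ρ) :
    AnalyticOnNhd ℝ (fun p : ℝ × ℝ => y (s₀ + Real.sin p.1 • v) p.2) univ := by
  intro p _
  exact AnalyticAt.fun_comp (g := fun p : V × ℝ => y p.1 p.2)
    (f := fun p : ℝ × ℝ => ((s₀ + Real.sin p.1 • v, p.2) : V × ℝ))
    (hy _ ⟨path_mem hball hv p.1, mem_univ _⟩) (path_an2 s₀ v p (mem_univ _))

lemma per_an {S : V → ℝ} (hS : AnalyticOnNhd ℝ S D) (hball : Metric.ball s₀ ρ ⊆ D)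
    (hv : ‖v‖ < ρ) : AnalyticOnNhd ℝ (fun r : ℝ => S (s₀ + Real.sin r • v)) univ := by
  intro r _
  exact AnalyticAt.fun_comp (g := S) (f := fun r : ℝ => s₀ + Real.sin r • v)
    (hS _ (path_mem hball hv r)) (path_an s₀ v r (mem_univ _))

end path

/-- The defect of the rotation relation is analytic in the parameter. -/
lemma defect_an {D : Set V} {y : V → ℝ → Ph n}
    (hy : AnalyticOnNhd ℝ (fun p : V × ℝ => y p.1 p.2) (D ×ˢ univ))
    {S : V → ℝ} (hS : AnalyticOnNhd ℝ S D) (c : ℂ) (t : ℝ) :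
    AnalyticOnNhd ℝ (fun s => y s (t + 2 * S s) - c • y s t) D := by
  intro s hs
  have h1 : AnalyticAt ℝ (fun s : V => ((s, t + 2 * S s) : V × ℝ)) s :=
    analyticAt_id.prod (analyticAt_const.add (analyticAt_const.mul (hS s hs)))
  have h2 : AnalyticAt ℝ (fun s : V => ((s, t) : V × ℝ)) s := analyticAt_id.prod analyticAt_const
  have h3 : AnalyticAt ℝ (fun s : V => y s (t + 2 * S s)) s :=
    AnalyticAt.fun_comp (g := fun p : V × ℝ => y p.1 p.2)
      (f := fun s : V => ((s, t + 2 * S s) : V × ℝ)) (hy _ ⟨hs, mem_univ _⟩) h1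
  have h4 : AnalyticAt ℝ (fun s : V => y s t) s :=
    AnalyticAt.fun_comp (g := fun p : V × ℝ => y p.1 p.2)
      (f := fun s : V => ((s, t) : V × ℝ)) (hy _ ⟨hs, mem_univ _⟩) h2
  refine h3.sub ?_
  have h5 : AnalyticAt ℝ (fun z : Ph n => c • z) (y s t) :=
    ContinuousLinearMap.analyticAt (c • ContinuousLinearMap.id ℝ (Ph n)) _
  exact AnalyticAt.fun_comp (g := fun z : Ph n => c • z) (f := fun s : V => y s t) h5 h4

lemma smul_inj (hn : 2 ≤ n) {z : Ph n} (hz : z ∈ phaseSpace m) {c c' : ℂ} (h : c • z = c' • z) :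
    c = c' := by
  obtain ⟨a, ha⟩ := exists_ne_zero hn hz
  have h1 : (c • z).1 a = (c' • z).1 a := by rw [h]
  simp only [Prod.smul_fst, Pi.smul_apply, smul_eq_mul] at h1
  exact mul_right_cancel₀ ha h1

theorem whole (hn : 2 ≤ n) (hm : ∀ a, 0 < m a) {U : Set (Ph n)} (hU : IsOpen U) {K : ℕ}
    (hK : 1 ≤ K)
    (hl : ∀ z : ℝ → Ph n, IsSol m (Ici 0) z → z 0 ∈ U → ∀ c : ℂ, ‖c‖ = 1 →
      (∀ p ∈ closure (z '' Ici 0), c • p ∈ closure (z '' Ici 0)) → c ^ K = 1)
    {D : Set V} (hD : IsOpen D) (hDc : IsPreconnected D) {y : V → ℝ → Ph n}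
    (hy : AnalyticOnNhd ℝ (fun p : V × ℝ => y p.1 p.2) (D ×ˢ univ))
    {S : V → ℝ} (hS : AnalyticOnNhd ℝ S D) (hsol : ∀ s ∈ D, IsSol m univ (y s))
    (hS0 : ∀ s ∈ D, 0 < S s) (hper : ∀ s ∈ D, DistPer (y s) (S s))
    {s₀ : V} (hs₀ : s₀ ∈ D) (hsU : y s₀ 0 ∈ U) :
    ∃ c : ℂ, c ^ K = 1 ∧
      (∀ s ∈ D, ∀ t, y s (t + 2 * S s) = c • y s t) ∧
      (∀ s ∈ D, ∀ t, y s (t + 2 * K * S s) = y s t) ∧
      (∀ s ∈ D, S s ^ 2 * energy m (y s 0) ^ 3 = S s₀ ^ 2 * energy m (y s₀ 0) ^ 3) := by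
  classical
  have hG := Pool.Agent.W827.TB.Gram.main
  have hex : ∀ s, ∃ c : ℂ, s ∈ D → ‖c‖ = 1 ∧ ∀ t, y s (t + 2 * S s) = c • y s t := by
    intro s
    by_cases hs : s ∈ D
    · obtain ⟨c, h1, h2⟩ := rot_of_distPer hG hn hm (hsol s hs) (hper s hs)
      exact ⟨c, fun _ => ⟨h1, h2⟩⟩
    · exact ⟨1, fun h => absurd h hs⟩
  choose cc hcc using hex
  set c := cc s₀ with hcdef
  have hcn : ‖c‖ = 1 := (hcc s₀ hs₀).1
  have hc : ∀ t, y s₀ (t + 2 * S s₀) = c • y s₀ t := (hcc s₀ hs₀).2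
  have hc0 : ContinuousAt (fun s => y s 0) s₀ := by
    have h1 : ContinuousAt (fun p : V × ℝ => y p.1 p.2) ((fun s : V => ((s, 0) : V × ℝ)) s₀) :=
      (hy (s₀, 0) ⟨hs₀, mem_univ _⟩).continuousAt
    exact ContinuousAt.comp (f := fun s : V => ((s, 0) : V × ℝ))
      (g := fun p : V × ℝ => y p.1 p.2) h1
      (by fun_prop : Continuous (fun s : V => ((s, 0) : V × ℝ))).continuousAt
  have hcS : ContinuousAt (fun s => y s (2 * S s)) s₀ := by
    have h1 : ContinuousAt (fun p : V × ℝ => y p.1 p.2)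
        ((fun s : V => ((s, 2 * S s) : V × ℝ)) s₀) :=
      (hy (s₀, 2 * S s₀) ⟨hs₀, mem_univ _⟩).continuousAt
    exact ContinuousAt.comp (f := fun s : V => ((s, 2 * S s) : V × ℝ))
      (g := fun p : V × ℝ => y p.1 p.2) h1
      (continuousAt_id.prodMk (continuousAt_const.mul (hS s₀ hs₀).continuousAt))
  have hmemU : ∀ᶠ s in 𝓝 s₀, y s 0 ∈ U := hc0.eventually_mem (hU.mem_nhds hsU)
  have hmemD : ∀ᶠ s in 𝓝 s₀, s ∈ D := hD.mem_nhds hs₀
  have hcK1 : ∀ s ∈ D, y s 0 ∈ U → cc s ^ K = 1 := fun s hs hsU' =>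
    hl (y s) ((hsol s hs).restrict _) hsU' (cc s) (hcc s hs).1
      (closure_invariant (by have := hS0 s hs; positivity) (hcc s hs).2)
  have hcK : c ^ K = 1 := hcK1 s₀ hs₀ hsU
  obtain ⟨b, hb⟩ := exists_ne_zero hn ((hsol s₀ hs₀).mem 0)
  have hproj : Continuous (fun z : Ph n => z.1 b) := (continuous_apply b).comp continuous_fst
  have hposc : ContinuousAt (fun s => (y s 0).1 b) s₀ :=
    ContinuousAt.comp (g := fun z : Ph n => z.1 b) hproj.continuousAt hc0
  have hposS : ContinuousAt (fun s => (y s (2 * S s)).1 b) s₀ :=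
    ContinuousAt.comp (g := fun z : Ph n => z.1 b) hproj.continuousAt hcS
  have hbne : ∀ᶠ s in 𝓝 s₀, (y s 0).1 b ≠ 0 := hposc.eventually_ne hb
  have hg : ContinuousAt (fun s => (y s (2 * S s)).1 b / (y s 0).1 b) s₀ := hposS.div hposc hb
  have hcg : ∀ s ∈ D, (y s 0).1 b ≠ 0 → (y s (2 * S s)).1 b / (y s 0).1 b = cc s := by
    intro s hs hs0
    have h1 := (hcc s hs).2 0
    rw [zero_add] at h1
    rw [h1, div_eq_iff hs0]
    simp
  have hfin : IsClosed ({z : ℂ | z ^ K = 1} \ {c}) := ((finite_roots K hK).sdiff).isClosed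
  have hev : ∀ᶠ s in 𝓝 s₀,
      (y s (2 * S s)).1 b / (y s 0).1 b ∈ ({z : ℂ | z ^ K = 1} \ {c})ᶜ := by
    refine hg (hfin.isOpen_compl.mem_nhds ?_)
    have h0 := hcg s₀ hs₀ hb
    change (y s₀ (2 * S s₀)).1 b / (y s₀ 0).1 b ∈ ({z : ℂ | z ^ K = 1} \ {c})ᶜ
    rw [h0]
    simp [hcdef]
  have hloc : ∀ᶠ s in 𝓝 s₀, s ∈ D ∧ cc s = c := by
    filter_upwards [hmemU, hbne, hev, hmemD] with s h1 h2 h3 h4
    refine ⟨h4, ?_⟩
    rw [hcg s h4 h2] at h3
    by_contra hne'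
    exact h3 ⟨hcK1 s h4 h1, hne'⟩
  -- everywhere
  have hrot : ∀ s ∈ D, ∀ t, y s (t + 2 * S s) = c • y s t := by
    intro s hs t
    have hz := (defect_an hy hS c t).eqOn_zero_of_preconnected_of_eventuallyEq_zero hDc hs₀ (by
      filter_upwards [hloc] with u hu
      simp only [Pi.zero_apply]
      rw [(hcc u hu.1).2 t, hu.2, sub_self])
    exact sub_eq_zero.1 (hz hs)
  have hperK : ∀ s ∈ D, ∀ t, y s (t + 2 * K * S s) = y s t := by
    intro s hs t
    have h2 := iter_smul (hrot s hs) K t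
    rw [hcK, one_smul] at h2
    rw [← h2]
    congr 1; ring
  refine ⟨c, hcK, hrot, hperK, ?_⟩
  -- the Kepler quantity is locally constant
  have hKpos : (0 : ℝ) < K := by exact_mod_cast hK
  have hkep : ∀ s₁ ∈ D, ∀ᶠ s in 𝓝 s₁,
      S s ^ 2 * energy m (y s 0) ^ 3 = S s₁ ^ 2 * energy m (y s₁ 0) ^ 3 := by
    intro s₁ hs₁
    obtain ⟨ρ₁, hρ₁, hball₁⟩ := Metric.isOpen_iff.1 hD s₁ hs₁
    filter_upwards [Metric.ball_mem_nhds s₁ hρ₁] with u hu
    rw [Metric.mem_ball, dist_eq_norm] at hu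
    set v := u - s₁ with hv
    have hfa := fam_an hy hball₁ hu
    have hpa := per_an hS hball₁ hu
    have hder : ∀ r : ℝ, HasDerivAt (fun r => (2 * K * S (s₁ + Real.sin r • v)) ^ 2 *
        energy m (y (s₁ + Real.sin r • v) 0) ^ 3) 0 r := by
      intro r
      refine period_energy (y := fun r t => y (s₁ + Real.sin r • v) t) hfa.contDiff
        (fun r => hsol _ (path_mem hball₁ hu r))
        (P := fun r => 2 * K * S (s₁ + Real.sin r • v))
        ((hpa r (mem_univ _)).differentiableAt.hasDerivAt.const_mul _) ?_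
      refine Eventually.of_forall fun r' => ?_
      have h1 := hperK _ (path_mem hball₁ hu r') 0
      rw [zero_add] at h1
      exact h1
    have hconst := is_const_of_deriv_eq_zero (fun r => (hder r).differentiableAt)
      (fun r => (hder r).deriv) (Real.pi / 2) 0
    simp only [Real.sin_pi_div_two, one_smul, Real.sin_zero, zero_smul, add_zero] at hconst
    rw [hv, add_sub_cancel] at hconst
    have h4 : (4 * (K : ℝ) ^ 2) * (S u ^ 2 * energy m (y u 0) ^ 3) =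
        (4 * (K : ℝ) ^ 2) * (S s₁ ^ 2 * energy m (y s₁ 0) ^ 3) := by linear_combination hconst
    exact mul_left_cancel₀ (by positivity) h4
  intro s hs
  have hfd : ∀ s₁ ∈ D, HasFDerivAt (fun s => S s ^ 2 * energy m (y s 0) ^ 3)
      (0 : V →L[ℝ] ℝ) s₁ := fun s₁ hs₁ =>
    (hasFDerivAt_const (S s₁ ^ 2 * energy m (y s₁ 0) ^ 3) s₁).congr_of_eventuallyEq (hkep s₁ hs₁)
  exact hD.is_const_of_fderiv_eq_zero hDc
    (fun s₁ hs₁ => (hfd s₁ hs₁).differentiableAt.differentiableWithinAt)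
    (fun s₁ hs₁ => (hfd s₁ hs₁).fderiv) hs hs₀

/-- A member of the family which is a uniformly rotating relative equilibrium. -/
lemma releq (hn : 2 ≤ n) {x : ℝ → Ph n} (hx : IsSol m univ x) {S Ω : ℝ} {c : ℂ} {K : ℕ}
    (hcK : c ^ K = 1) (hrot : ∀ t, x (t + 2 * S) = c • x t)
    (hΩ : ∀ t : ℝ, x t = Complex.exp (Ω * t * Complex.I) • x 0) :
    ∃ j : ℤ, K * (Ω * S) = Real.pi * j := by
  have h1 := hrot 0
  rw [zero_add, hΩ (2 * S)] at h1
  have h2 := smul_inj hn (hx.mem 0) h1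
  rw [← h2, ← Complex.exp_nat_mul, Complex.exp_eq_one_iff] at hcK
  obtain ⟨j, hj⟩ := hcK
  refine ⟨j, ?_⟩
  have h3 := congrArg Complex.im hj
  push_cast at h3
  simp at h3
  linarith

/-- A relative equilibrium rotates uniformly. -/
theorem releq_exp (hn : 2 ≤ n) (hm : ∀ a, 0 < m a) {x : ℝ → Ph n} (hx : IsSol m univ x)
    (hre : IsRelEq x) : ∃ Ω : ℝ, ∀ t : ℝ, x t = Complex.exp (Ω * t * Complex.I) • x 0 := by
  have hG := Pool.Agent.W827.TB.Gram.main
  have hD : ∀ T, DistPer x T := fun T t a b => by rw [hre (t + T) a b, hre t a b]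
  choose c hcn hc using fun T => rot_of_distPer hG hn hm hx (hD T)
  obtain ⟨a, ha⟩ := exists_ne_zero hn (hx.mem 0)
  have hx2 : ∀ t, x t = c (t / 2) • x 0 := by
    intro t
    have h1 := hc (t / 2) 0
    rw [zero_add, mul_div_cancel₀ t (two_ne_zero)] at h1
    exact h1
  have hg : ∀ t, (x t).1 a / (x 0).1 a = c (t / 2) := by
    intro t
    rw [div_eq_iff ha]
    have h1 := congrArg (fun z : Ph n => z.1 a) (hx2 t)
    simpa using h1
  set lam : ℂ := (x 0).2 a / (x 0).1 a with hlam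
  have hder : ∀ t, HasDerivAt (fun t => c (t / 2)) (c (t / 2) * lam) t := by
    intro t
    have h1 := (hasDerivAt_pos hx t a).div_const ((x 0).1 a)
    have h2 : (fun t => (x t).1 a / (x 0).1 a) = fun t => c (t / 2) := funext hg
    rw [h2] at h1
    refine h1.congr_deriv ?_
    have h3 := congrArg (fun z : Ph n => z.2 a) (hx2 t)
    simp only [Prod.smul_snd, Pi.smul_apply, smul_eq_mul] at h3
    rw [h3, hlam, mul_div_assoc]
  have hexp : ∀ t : ℝ, HasDerivAt (fun t : ℝ => Complex.exp (-(lam * t)))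
      (Complex.exp (-(lam * t)) * -(lam * 1)) t := by
    intro t
    have h1 : HasDerivAt (fun t : ℝ => (t : ℂ)) 1 t := Complex.ofRealCLM.hasDerivAt
    exact ((h1.const_mul lam).neg).cexp
  have hzero : ∀ t, HasDerivAt (fun t => c (t / 2) * Complex.exp (-(lam * t))) 0 t := by
    intro t
    refine ((hder t).mul (hexp t)).congr_deriv ?_
    ring
  have hconst : ∀ t : ℝ, c (t / 2) = Complex.exp (lam * t) := by
    intro t
    have h1 := is_const_of_deriv_eq_zero (fun r => (hzero r).differentiableAt)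
      (fun r => (hzero r).deriv) t 0
    simp only [zero_div, Complex.ofReal_zero, mul_zero, neg_zero, Complex.exp_zero, mul_one] at h1
    have h2 : c 0 = 1 := by
      have := hg 0
      rw [div_self ha, zero_div] at this
      exact this.symm
    rw [h2, Complex.exp_neg] at h1
    exact (mul_inv_eq_one₀ (Complex.exp_ne_zero _)).1 h1
  have hre0 : lam.re = 0 := by
    have h1 := hconst 1
    have h2 := hcn (1 / 2)
    rw [h1, Complex.norm_exp] at h2
    simpa using h2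
  refine ⟨lam.im, fun t => ?_⟩
  rw [hx2 t, hconst t]
  congr 2
  have h3 : lam = lam.im * Complex.I := by
    apply Complex.ext <;> simp [hre0]
  nth_rewrite 1 [h3]
  ring

end Pool.Agent.U708.NB
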